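import Pool.Agent.Helper67.KPG.St2

/-! # Project KP, chapter G (algebra), module TRA: transversality and the projection along
`g_(≤ j-1)` -/

set_option autoImplicit false

namespace Pool.Agent.Helper97.KPG

open Pool.Agent.Helper67.KPG Pool.Agent.Helper67.NO Pool.Agent.Helper52.KP

universe u

/-- a homogenized polynomial in an operator -/
private theorem tra_aeval {g : Type u} [LieRing g] [LieAlgebra ℂ g] (P : Polynomial ℂ)
    (X : Module.End ℂ g) (q : ℂ) (hq : q ≠ 0) :
    ∑ k ∈ Finset.range (P.natDegree + 1), (P.coeff k * q ^ (P.natDegree - k)) • X ^ k =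
      q ^ P.natDegree • (Polynomial.aeval (q⁻¹ • X) P : Module.End ℂ g) := by
  rw [Polynomial.aeval_eq_sum_range, Finset.smul_sum]
  refine Finset.sum_congr rfl fun k hk => ?_
  have hk' : k ≤ P.natDegree := by
    have := Finset.mem_range.mp hk
    omega
  rw [smul_pow, smul_smul, smul_smul]
  congr 1
  rw [pow_sub₀ _ hq hk', inv_pow]
  ring

theorem hTRA (hchm : StCHM.{u}) (hprj : StPRJ.{u}) (hhpc : StHPC.{u}) (hbas : StBAS.{u}) :
    StTRA.{u} := by
  intro g _ _ _ e h f N pr hSl j
  obtain ⟨P, hP⟩ := hprj g e h f N pr hSl j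
  obtain ⟨r, q, F, hq, hF, hqe, hqF⟩ := hchm g e h f N pr hSl
  have H := hhpc g
  have B := hbas g e h f N pr hSl
  -- the operator `A x`
  obtain ⟨A, hAdef⟩ : ∃ A : g → (g →ₗ[ℂ] g), ∀ x, A x = ∑ k ∈ Finset.range (P.natDegree + 1),
      (P.coeff k * q x ^ (P.natDegree - k)) •
        ((LieAlgebra.ad ℂ g ⁅x, F x⁆ : Module.End ℂ g) ^ k : Module.End ℂ g) :=
    ⟨_, fun x => rfl⟩
  have hA : HL (P.natDegree * (r + 1)) A := by
    have h1 : A = fun x => ∑ k ∈ Finset.range (P.natDegree + 1),
      (P.coeff k * q x ^ (P.natDegree - k)) •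
        ((LieAlgebra.ad ℂ g ⁅x, F x⁆ : Module.End ℂ g) ^ k : Module.End ℂ g) := funext hAdef
    rw [h1]
    refine H.lsum ℕ (Finset.range (P.natDegree + 1)) (P.natDegree * (r + 1))
      (fun k x => (P.coeff k * q x ^ (P.natDegree - k)) •
        ((LieAlgebra.ad ℂ g ⁅x, F x⁆ : Module.End ℂ g) ^ k : Module.End ℂ g)) ?_
    intro k hk
    have hk' : k ≤ P.natDegree := by
      have := Finset.mem_range.mp hk
      omega
    have h2 : P.natDegree * (r + 1) = (P.natDegree - k) * (r + 1) + k * (1 + r) := by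
      rw [Nat.add_comm 1 r, ← Nat.add_mul, Nat.sub_add_cancel hk']
    rw [h2]
    refine H.lsmul _ _ _ _ ?_ ?_
    · exact H.smul _ _ _ (H.pow _ _ _ hq)
    · exact H.lpow _ _ _ (H.lad _ _ (H.vbr _ _ _ _ H.vid hF))
  -- the values of `A` at `w e`
  have hAv : ∀ w, GP (⊤ : Submodule ℂ g) w → q (w e) ≠ 0 →
      (∀ v, ∃ y ∈ ge pr j, A (w e) v = w y) ∧
      (∀ y ∈ ge pr j, A (w e) (w y) = q (w e) ^ P.natDegree • w y) := by
    intro w hw hqw
    have h1 := hqF w hw hqw
    have h2 : ⁅w e, ⁅w e, (q (w e))⁻¹ • F (w e)⁆⁆ = -((2 : ℂ) • w e) := by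
      rw [lie_smul, lie_smul, h1, smul_neg, smul_smul]
      congr 2
      field_simp
    obtain ⟨h3, h4⟩ := hP w hw _ h2
    have h5 : A (w e) = q (w e) ^ P.natDegree •
        (Polynomial.aeval (LieAlgebra.ad ℂ g ⁅w e, (q (w e))⁻¹ • F (w e)⁆ : Module.End ℂ g) P :
          Module.End ℂ g) := by
      have h6 : (LieAlgebra.ad ℂ g ⁅w e, (q (w e))⁻¹ • F (w e)⁆ : Module.End ℂ g) =
          (q (w e))⁻¹ • (LieAlgebra.ad ℂ g ⁅w e, F (w e)⁆ : Module.End ℂ g) := by
        rw [lie_smul, map_smul]
      rw [h6, hAdef]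
      exact tra_aeval P _ _ hqw
    constructor
    · intro v
      obtain ⟨y, hy, hy2⟩ := h3 v
      refine ⟨q (w e) ^ P.natDegree • y, Submodule.smul_mem _ _ hy, ?_⟩
      rw [h5, map_smul, ← hy2]
      rfl
    · intro y hy
      rw [h5]
      exact congrArg (fun z => q (w e) ^ P.natDegree • z) (h4 y hy)
  -- the basis and the projection
  have hc := B.cpl j
  obtain ⟨π, hπ1, hπ2, hπ3⟩ : ∃ π : g →ₗ[ℂ] (ge pr j), (∀ x : ge pr j, π x = x) ∧
      (∀ x, π x = 0 → x ∈ le pr (j - 1)) ∧ ∀ x ∈ le pr (j - 1), π x = 0 := by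
    refine ⟨Submodule.projectionOnto _ _ hc, ?_, ?_, ?_⟩
    · intro x
      exact Submodule.projectionOnto_apply_left hc x
    · intro x hx
      have : x ∈ LinearMap.ker (Submodule.projectionOnto _ _ hc) := hx
      rwa [Submodule.ker_projectionOnto] at this
    · intro x hx
      have : x ∈ LinearMap.ker (Submodule.projectionOnto _ _ hc) := by
        rwa [Submodule.ker_projectionOnto]
      exact this
  set n := Module.finrank ℂ (ge pr j) with hn
  let b : Module.Basis (Fin n) ℂ (ge pr j) := Module.finBasis ℂ (ge pr j)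
  let β : Fin n → (g →ₗ[ℂ] ℂ) := fun a => b.coord a ∘ₗ π
  have hβ : ∀ a x, β a x = b.repr (π x) a := fun a x => rfl
  -- the matrix `S x`
  obtain ⟨S, hS⟩ : ∃ S : g → Matrix (Fin n) (Fin n) ℂ, ∀ x a c, S x a c =
      β a (A x (b c : g)) := ⟨fun x => Matrix.of fun a c => β a (A x (b c : g)), fun x a c => rfl⟩
  have hSH : ∀ a c, HP (P.natDegree * (r + 1)) (fun x => S x a c) := by
    intro a c
    simp only [hS]
    exact H.vfun _ (β a) _ (hA _)
  -- the function `t` and the family `T`
  let T : g → (g →ₗ[ℂ] g) := fun x => ∑ a, ∑ c, (q x * (S x).adjugate a c) •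
    (β c).smulRight (A x (b a : g))
  have hTv : ∀ x v, T x v = ∑ a, ∑ c, (q x * (S x).adjugate a c * β c v) • A x (b a : g) := by
    intro x v
    simp only [T, LinearMap.sum_apply, LinearMap.smul_apply, LinearMap.smulRight_apply, smul_smul]
  have htH : HP ((r + 1) + n * (P.natDegree * (r + 1))) (fun x => q x * (S x).det) :=
    H.mul _ _ _ _ hq (H.det _ _ _ hSH)
  have hTH : HL ((r + 1) + n * (P.natDegree * (r + 1))) T := by
    intro v
    have h1 : (fun x => T x v) = fun x => ∑ a, ∑ c,
      (q x * (S x).adjugate a c * β c v) • A x (b a : g) := funext fun x => hTv x v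
    rw [h1]
    refine H.vsum (Fin n) Finset.univ _ (fun a x => ∑ c,
      (q x * (S x).adjugate a c * β c v) • A x (b a : g)) ?_
    intro a _
    refine H.vsum (Fin n) Finset.univ _ (fun c x =>
      (q x * (S x).adjugate a c * β c v) • A x (b a : g)) ?_
    intro c _
    have hn1 : 1 ≤ n := by
      have := a.2
      omega
    have h2 : (r + 1) + n * (P.natDegree * (r + 1)) =
        ((r + 1) + (n - 1) * (P.natDegree * (r + 1))) + P.natDegree * (r + 1) := by
      obtain ⟨n', hn'⟩ := Nat.exists_eq_add_of_le' hn1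
      rw [hn', Nat.add_sub_cancel]
      ring
    rw [h2]
    refine H.vsmul _ _ _ _ ?_ (hA _)
    have h3 := H.smul _ (β c v) _ (H.mul _ _ _ _ hq (H.adj _ _ _ hSH a c))
    have h4 : (fun x => q x * (S x).adjugate a c * β c v) =
        fun x => β c v * (q x * (S x).adjugate a c) := by
      funext x
      ring
    rw [h4]
    exact h3
  refine ⟨(r + 1) + n * (P.natDegree * (r + 1)), fun x => q x * (S x).det, T, by omega, htH, hTH,
    ?_, ?_⟩
  · -- `t e ≠ 0`
    have h1 := (hAv LinearMap.id GP.one (by simpa using hqe)).2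
    have h2 : S e = q e ^ P.natDegree • (1 : Matrix (Fin n) (Fin n) ℂ) := by
      ext a c
      have h3 := h1 (b c : g) (b c).2
      simp only [LinearMap.id_coe, id_eq] at h3
      rw [hS, h3, map_smul, hβ, hπ1, b.repr_self]
      simp [Matrix.one_apply, Finsupp.single_apply, eq_comm]
    simp only [h2, Matrix.det_smul, Matrix.det_one, mul_one]
    exact mul_ne_zero hqe (pow_ne_zero _ (pow_ne_zero _ hqe))
  · intro w hw htw
    have hqw : q (w e) ≠ 0 := left_ne_zero_of_mul htw
    have hA1 := (hAv w hw hqw).1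
    -- the second claim
    have key : ∀ v ∈ ge pr j, ∃ y ∈ ge pr j, T (w e) v = w y ∧
        π (T (w e) v) = (q (w e) * (S (w e)).det) • π v := by
      intro v hv
      choose yy hyy1 hyy2 using hA1
      refine ⟨∑ a, ∑ c, (q (w e) * (S (w e)).adjugate a c * β c v) • yy (b a : g), ?_, ?_, ?_⟩
      · exact Submodule.sum_mem _ fun a _ => Submodule.sum_mem _ fun c _ =>
          Submodule.smul_mem _ _ (hyy1 _)
      · rw [hTv, map_sum]
        refine Finset.sum_congr rfl fun a _ => ?_
        rw [map_sum]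
        refine Finset.sum_congr rfl fun c _ => ?_
        rw [map_smul, hyy2]
      · apply b.repr.injective
        ext a'
        rw [← hβ, hTv, map_smul, Finsupp.smul_apply, ← hβ, map_sum]
        have h1 : ∀ a, β a' (∑ c, (q (w e) * (S (w e)).adjugate a c * β c v) •
            A (w e) (b a : g)) = ∑ c, q (w e) * (S (w e) a' a * (S (w e)).adjugate a c) *
              β c v := by
          intro a
          rw [map_sum]
          refine Finset.sum_congr rfl fun c _ => ?_
          rw [map_smul, hS, smul_eq_mul]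
          ring
        rw [Finset.sum_congr rfl fun a _ => h1 a, Finset.sum_comm]
        have h2 : ∀ c, ∑ a, q (w e) * (S (w e) a' a * (S (w e)).adjugate a c) * β c v =
            q (w e) * ((S (w e)).det * (1 : Matrix (Fin n) (Fin n) ℂ) a' c) * β c v := by
          intro c
          rw [← Finset.sum_mul, ← Finset.mul_sum, ← Matrix.mul_apply, Matrix.mul_adjugate]
          rfl
        rw [Finset.sum_congr rfl fun c _ => h2 c]
        simp [Matrix.one_apply]
    constructor
    · -- injectivity from surjectivity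
      let L : (ge pr j) →ₗ[ℂ] (ge pr j) := π ∘ₗ w ∘ₗ (ge pr j).subtype
      have hL : Function.Surjective L := by
        intro v
        obtain ⟨y, hy, h1, h2⟩ := key v v.2
        refine ⟨(q (w e) * (S (w e)).det)⁻¹ • ⟨y, hy⟩, ?_⟩
        rw [map_smul]
        have h3 : L ⟨y, hy⟩ = π (w y) := rfl
        rw [h3, ← h1, h2, smul_smul, inv_mul_cancel₀ htw, one_smul, hπ1]
      have hL' : Function.Injective L := LinearMap.injective_iff_surjective.mpr hL
      intro y hy hwy
      have h4 : L ⟨y, hy⟩ = 0 := by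
        have h5 : L ⟨y, hy⟩ = π (w y) := rfl
        rw [h5]
        -- the kernel
        exact hπ3 _ hwy
      have h6 : (⟨y, hy⟩ : ge pr j) = 0 := hL' (by rw [h4, map_zero])
      simpa using congrArg Subtype.val h6
    · intro v hv
      obtain ⟨y, hy, h1, h2⟩ := key v hv
      refine ⟨y, hy, h1, hπ2 _ ?_⟩
      rw [map_sub, map_smul, h2, sub_self]

end Pool.Agent.Helper97.KPG
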